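import Pool.Agent.Helper38.WM.St2

/-! # WM MODULE JFW: a weighted recursive sequence is a multiplicative filtration -/

set_option autoImplicit false

namespace Pool.Agent.Helper97.WM

open Pool.Agent.Helper38.WM

variable {p : ℕ} [Fact p.Prime] {X : Type} [Fintype X] [DecidableEq X] {ι : Type}

theorem mem_Kw (Φ : Fox p X) (I : X → Submodule (ZMod p) (GA p (FreeGroup X)))
    (f : GA p (FreeGroup X)) : f ∈ Φ.Kw I ↔ Φ.ε f = 0 ∧ ∀ x, Φ.d x f ∈ I x := by
  unfold Fox.Kw
  rw [Submodule.mem_inf, LinearMap.mem_ker, Submodule.mem_iInf]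
  rfl

theorem Kw_mono (Φ : Fox p X) {I I' : X → Submodule (ZMod p) (GA p (FreeGroup X))}
    (h : ∀ x, I x ≤ I' x) : Φ.Kw I ≤ Φ.Kw I' := by
  intro f hf
  rw [mem_Kw] at hf ⊢
  exact ⟨hf.1, fun x => h x (hf.2 x)⟩

variable {Φ : Fox p X} {d : X → ℕ} {r : ι → FreeGroup X}
  {J : ℕ → Submodule (ZMod p) (GA p (FreeGroup X))}

theorem K_le (hJ : Φ.IsJ d r J) (n : ℕ) :
    Φ.Kw (fun x => J (n + 1 - d x)) ≤ J (n + 1) := by
  rw [hJ.succ]; exact le_sup_left

theorem rel_mem (hJ : Φ.IsJ d r J) (n : ℕ) (i : ι) (u : GA p (FreeGroup X)) :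
    (el p (r i) - 1) * u ∈ J (n + 1) := by
  rw [hJ.succ]
  refine Submodule.mem_sup_right (Submodule.mem_iSup_of_mem i ?_)
  exact ⟨u, rfl⟩

/-- induction over the elements of `J (n+1)` -/
theorem J_ind (hJ : Φ.IsJ d r J) (n : ℕ)
    (T : GA p (FreeGroup X) →ₗ[ZMod p] GA p (FreeGroup X))
    (W : Submodule (ZMod p) (GA p (FreeGroup X)))
    (h1 : ∀ f ∈ Φ.Kw (fun x => J (n + 1 - d x)), T f ∈ W)
    (h2 : ∀ i u, T ((el p (r i) - 1) * u) ∈ W) :
    ∀ f ∈ J (n + 1), T f ∈ W := by
  have h : J (n + 1) ≤ W.comap T := by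
    rw [hJ.succ]
    refine sup_le (fun f hf => h1 f hf) (iSup_le fun i => ?_)
    rintro _ ⟨u, rfl⟩
    exact h2 i u
  exact fun f hf => h hf

/-- (i) -/
theorem J_succ_le (hJ : Φ.IsJ d r J) (hd : ∀ x, 1 ≤ d x) : ∀ n, J (n + 1) ≤ J n := by
  intro n
  induction n using Nat.strong_induction_on with
  | _ n ih =>
    cases n with
    | zero => rw [hJ.zero]; exact le_top
    | succ m =>
      rw [hJ.succ (m + 1), hJ.succ m]
      refine sup_le_sup_right (Kw_mono Φ fun x => ?_) _
      have hx := hd x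
      by_cases hc : d x ≤ m + 1
      · have e : m + 1 + 1 - d x = (m + 1 - d x) + 1 := by omega
        rw [e]
        exact ih (m + 1 - d x) (by omega)
      · have e : m + 1 + 1 - d x = m + 1 - d x := by omega
        rw [e]

theorem J_anti (hJ : Φ.IsJ d r J) (hd : ∀ x, 1 ≤ d x) : Antitone J :=
  antitone_nat_of_succ_le (J_succ_le hJ hd)

theorem d_one (Φ : Fox p X) (x : X) : Φ.d x 1 = 0 := by
  have h := Φ.leib x 1 1
  have he : Φ.ε 1 = 1 := map_one Φ.ε
  rw [mul_one, mul_one, he, one_smul] at h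
  have : Φ.d x 1 + 0 = Φ.d x 1 + Φ.d x 1 := by rw [add_zero]; exact h
  exact (add_left_cancel this).symm

theorem d_el (Φ : Fox p X) (x y : X) :
    Φ.d x (el p (FreeGroup.of y)) = if x = y then 1 else 0 := by
  have h := Φ.d_of x y
  rwa [map_sub, d_one, sub_zero] at h

theorem d_mul0 (Φ : Fox p X) (x : X) {f : GA p (FreeGroup X)} (hf : Φ.ε f = 0)
    (g : GA p (FreeGroup X)) : Φ.d x (f * g) = Φ.d x f * g := by
  rw [Φ.leib, hf, zero_smul, add_zero]

theorem eps_sub (Φ : Fox p X) (g : FreeGroup X) : Φ.ε (el p g - 1) = 0 := by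
  rw [map_sub, Φ.eps_el, map_one, sub_self]

/-- (ii) right ideals -/
theorem J_right (hJ : Φ.IsJ d r J) (hd : ∀ x, 1 ≤ d x) (g : GA p (FreeGroup X)) :
    ∀ n, ∀ f ∈ J n, f * g ∈ J n := by
  intro n
  induction n using Nat.strong_induction_on with
  | _ n ih =>
    cases n with
    | zero => intro f _; rw [hJ.zero]; exact Submodule.mem_top
    | succ n =>
      refine J_ind hJ n (LinearMap.mulRight (ZMod p) g) _ ?_ ?_
      · intro f hf
        rw [mem_Kw] at hf
        apply K_le hJ
        rw [mem_Kw]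
        refine ⟨?_, fun x => ?_⟩
        · show Φ.ε (f * g) = 0
          rw [map_mul, hf.1, zero_mul]
        · show Φ.d x (f * g) ∈ _
          rw [d_mul0 Φ x hf.1]
          have hx := hd x
          exact ih (n + 1 - d x) (by omega) _ (hf.2 x)
      · intro i u
        show (el p (r i) - 1) * u * g ∈ _
        rw [mul_assoc]
        exact rel_mem hJ n i _

/-- (iii) -/
theorem x_mul (Φ : Fox p X) (d : X → ℕ) (J : ℕ → Submodule (ZMod p) (GA p (FreeGroup X)))
    (n : ℕ) (x : X) {f : GA p (FreeGroup X)}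
    (hf : f ∈ J (n + 1 - d x)) :
    (el p (FreeGroup.of x) - 1) * f ∈ Φ.Kw (fun y => J (n + 1 - d y)) := by
  rw [mem_Kw]
  refine ⟨by rw [map_mul, eps_sub, zero_mul], fun y => ?_⟩
  rw [d_mul0 Φ y (eps_sub Φ _), Φ.d_of]
  split_ifs with h
  · rw [one_mul]
    subst h
    exact hf
  · rw [zero_mul]; exact Submodule.zero_mem _

theorem d_inv (Φ : Fox p X) (z x : X) :
    Φ.d z (el p (FreeGroup.of x)⁻¹) = -((if z = x then 1 else 0) * el p (FreeGroup.of x)⁻¹) := by
  have h1 : el p (FreeGroup.of x)⁻¹ * el p (FreeGroup.of x) = (1 : GA p (FreeGroup X)) := by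
    rw [el, el, ← map_mul, inv_mul_cancel, map_one]
  have h2 : el p (FreeGroup.of x) * el p (FreeGroup.of x)⁻¹ = (1 : GA p (FreeGroup X)) := by
    rw [el, el, ← map_mul, mul_inv_cancel, map_one]
  have h := Φ.leib z (el p (FreeGroup.of x)⁻¹) (el p (FreeGroup.of x))
  rw [h1, d_one, Φ.eps_el, one_smul, d_el] at h
  have h3 : Φ.d z (el p (FreeGroup.of x)⁻¹) * el p (FreeGroup.of x) =
      -(if z = x then 1 else 0) := eq_neg_of_add_eq_zero_left h.symm
  have h4 := congrArg (fun a => a * el p (FreeGroup.of x)⁻¹) h3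
  simp only [mul_assoc, h2, mul_one] at h4
  rw [h4, neg_mul]

theorem sum_eq (Φ : Fox p X) {f : GA p (FreeGroup X)} (hf : Φ.ε f = 0) :
    f = ∑ x, (el p (FreeGroup.of x) - 1) * Φ.d x f := by
  have h := Φ.decomp f
  rw [hf, map_zero, zero_add] at h
  exact h

/-- (iv) -/
theorem J_inv (hJ : Φ.IsJ d r J) (hd : ∀ x, 1 ≤ d x) (x : X) :
    ∀ n, ∀ f ∈ J n, el p (FreeGroup.of x)⁻¹ * f ∈ J n := by
  intro n
  induction n using Nat.strong_induction_on with
  | _ n ih =>
    cases n with
    | zero => intro f _; rw [hJ.zero]; exact Submodule.mem_top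
    | succ n =>
      have key : ∀ y : X, ∀ g ∈ J (n + 1 - d y),
          el p (FreeGroup.of x)⁻¹ * ((el p (FreeGroup.of y) - 1) * g) ∈
            Φ.Kw (fun z => J (n + 1 - d z)) := by
        intro y g hg
        rw [mem_Kw]
        refine ⟨by rw [map_mul, map_mul, eps_sub, zero_mul, mul_zero], fun z => ?_⟩
        rw [Φ.leib, Φ.eps_el, one_smul, d_inv, d_mul0 Φ z (eps_sub Φ _), Φ.d_of]
        have hy1 : (el p (FreeGroup.of y) - 1) * g ∈ J (n + 1) := K_le hJ n (x_mul Φ d J n y hg)
        refine Submodule.add_mem _ ?_ ?_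
        · rw [neg_mul, mul_assoc]
          refine Submodule.neg_mem _ ?_
          split_ifs with h
          · rw [one_mul]
            have hz := hd z
            subst h
            exact ih (n + 1 - d z) (by omega) _ (J_anti hJ hd (by omega) hy1)
          · rw [zero_mul]; exact Submodule.zero_mem _
        · split_ifs with h
          · rw [one_mul]
            subst h
            exact hg
          · rw [zero_mul]; exact Submodule.zero_mem _
      refine J_ind hJ n (LinearMap.mulLeft (ZMod p) (el p (FreeGroup.of x)⁻¹)) _ ?_ ?_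
      · intro f hf
        rw [mem_Kw] at hf
        show el p (FreeGroup.of x)⁻¹ * f ∈ _
        apply K_le hJ
        rw [sum_eq Φ hf.1, Finset.mul_sum]
        exact Submodule.sum_mem _ fun y _ => key y _ (hf.2 y)
      · intro i u
        show el p (FreeGroup.of x)⁻¹ * ((el p (r i) - 1) * u) ∈ _
        set f := (el p (r i) - 1) * u with hf
        have hfm : f ∈ J (n + 1) := rel_mem hJ n i u
        have h1 : el p (FreeGroup.of x)⁻¹ * el p (FreeGroup.of x) = (1 : GA p (FreeGroup X)) := by
          rw [el, el, ← map_mul, inv_mul_cancel, map_one]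
        have e : el p (FreeGroup.of x)⁻¹ * f =
            f - el p (FreeGroup.of x)⁻¹ * ((el p (FreeGroup.of x) - 1) * f) := by
          rw [sub_mul, mul_sub, ← mul_assoc _ _ f, h1, one_mul]
          abel
        rw [e]
        exact Submodule.sub_mem _ hfm
          (K_le hJ n (key x f (J_anti hJ hd (by omega) hfm)))

theorem x_mem (hJ : Φ.IsJ d r J) (hd : ∀ x, 1 ≤ d x) (n : ℕ) (x : X)
    {f : GA p (FreeGroup X)} (hf : f ∈ J n) : (el p (FreeGroup.of x) - 1) * f ∈ J n := by
  cases n with
  | zero => rw [hJ.zero]; exact Submodule.mem_top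
  | succ n => exact K_le hJ n (x_mul Φ d J n x (J_anti hJ hd (by omega) hf))

/-- (v) left ideals -/
theorem J_left (hJ : Φ.IsJ d r J) (hd : ∀ x, 1 ≤ d x) (n : ℕ) (a : GA p (FreeGroup X)) :
    ∀ f ∈ J n, a * f ∈ J n := by
  have hg : ∀ g : FreeGroup X, ∀ f ∈ J n, el p g * f ∈ J n := by
    intro g
    induction g using FreeGroup.induction_on with
    | C1 => intro f hf; rw [el, map_one, one_mul]; exact hf
    | of x =>
      intro f hf
      have e : el p (FreeGroup.of x) * f = (el p (FreeGroup.of x) - 1) * f + f := by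
        rw [sub_mul, one_mul]; abel
      show el p (FreeGroup.of x) * f ∈ _
      rw [e]
      exact Submodule.add_mem _ (x_mem hJ hd n x hf) hf
    | inv_of x _ => intro f hf; exact J_inv hJ hd x n f hf
    | mul a b ha hb =>
      intro f hf
      have e : el p (a * b) * f = el p a * (el p b * f) := by
        rw [el, map_mul, mul_assoc]
      rw [e]
      exact ha _ (hb _ hf)
  intro f hf
  induction a using MonoidAlgebra.induction_on with
  | of g => exact hg g f hf
  | add a b ha hb => rw [add_mul]; exact Submodule.add_mem _ ha hb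
  | smul c a ha => rw [smul_mul_assoc]; exact Submodule.smul_mem _ _ ha

/-- (vi) -/
theorem J_mul (hJ : Φ.IsJ d r J) (hd : ∀ x, 1 ≤ d x) (l : ℕ) :
    ∀ m, ∀ a ∈ J m, ∀ b ∈ J l, a * b ∈ J (m + l) := by
  intro m
  induction m using Nat.strong_induction_on with
  | _ m ih =>
    cases m with
    | zero => intro a _ b hb; rw [zero_add]; exact J_left hJ hd l a b hb
    | succ m =>
      intro a ha b hb
      have e : m + 1 + l = (m + l) + 1 := by ring
      rw [e]
      refine J_ind hJ m (LinearMap.mulRight (ZMod p) b) _ ?_ ?_ a ha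
      · intro f hf
        rw [mem_Kw] at hf
        show f * b ∈ _
        apply K_le hJ
        rw [sum_eq Φ hf.1, Finset.sum_mul]
        refine Submodule.sum_mem _ fun x _ => ?_
        rw [mul_assoc]
        refine x_mul Φ d J (m + l) x ?_
        have hx := hd x
        have h1 := ih (m + 1 - d x) (by omega) _ (hf.2 x) b hb
        exact J_anti hJ hd (by omega) h1
      · intro i u
        show (el p (r i) - 1) * u * b ∈ _
        rw [mul_assoc]
        exact rel_mem hJ (m + l) i _

/-- (vii) -/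
theorem J_fin (hJ : Φ.IsJ d r J) (hd : ∀ x, 1 ≤ d x) :
    ∀ n, Module.Finite (ZMod p) (GA p (FreeGroup X) ⧸ J n) := by
  intro n
  induction n using Nat.strong_induction_on with
  | _ n ih =>
    cases n with
    | zero =>
      have : Subsingleton (GA p (FreeGroup X) ⧸ J 0) :=
        Submodule.Quotient.subsingleton_iff.mpr hJ.zero
      infer_instance
    | succ n =>
      have hfx : ∀ x, Module.Finite (ZMod p) (GA p (FreeGroup X) ⧸ J (n + 1 - d x)) := fun x => by
        have hx := hd x
        exact ih (n + 1 - d x) (by omega)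
      let φ : GA p (FreeGroup X) →ₗ[ZMod p]
          ZMod p × (∀ x : X, (GA p (FreeGroup X) ⧸ J (n + 1 - d x))) :=
        Φ.ε.toLinearMap.prod (LinearMap.pi fun x => (J (n + 1 - d x)).mkQ ∘ₗ Φ.d x)
      have hker : LinearMap.ker φ = Φ.Kw (fun x => J (n + 1 - d x)) := by
        ext f
        rw [mem_Kw, LinearMap.mem_ker]
        constructor
        · intro h
          have h1 := congrArg Prod.fst h
          have h2 := congrArg Prod.snd h
          refine ⟨h1, fun x => ?_⟩
          have h3 := congrFun h2 x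
          exact (Submodule.Quotient.mk_eq_zero _).1 h3
        · rintro ⟨h1, h2⟩
          refine Prod.ext h1 (funext fun x => ?_)
          exact (Submodule.Quotient.mk_eq_zero _).2 (h2 x)
      have hf1 : Module.Finite (ZMod p) (GA p (FreeGroup X) ⧸ LinearMap.ker φ) :=
        Module.Finite.equiv (LinearMap.quotKerEquivRange φ).symm
      have hle : LinearMap.ker φ ≤ J (n + 1) := by rw [hker]; exact K_le hJ n
      exact Module.Finite.of_surjective (Submodule.factor hle) (Submodule.factor_surjective hle)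

/-- **WM MODULE JFW.** -/
theorem hJFW : StJFW := by
  intro p _ X _ _ Φ ι r d J hd hJ
  refine ⟨⟨J, hJ.zero, J_anti hJ hd, ?_, J_fin hJ hd⟩, rfl⟩
  intro m l
  rw [Submodule.mul_le]
  exact J_mul hJ hd l m

end Pool.Agent.Helper97.WM
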